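import Pool.Agent.Helper68.ES.St4

/-!
# Project ES (MP_cb927e_an), module FUS: the directions which are used are few
-/

set_option autoImplicit false

namespace Pool.Agent.Helper82.ES

open Pool.Agent.Helper68.ES Pool.Agent.Helper68.EP Pool.Agent.Helper20.RG
open Pool.Agent.Helper20.RL (RQ Rich BM Fml Hit)
open Pool.Agent.Helper68.LM (Pl BB Bd Av HL ft fm DQ)
open MeasureTheory Set Filter Topology
open scoped ENNReal

theorem fus_graph_mono {φ τ : ℝ → ℝ} (hG : Graph φ τ) {t t' : ℝ} (h : t ≤ t') : τ t ≤ τ t' := by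
  rcases h.lt_or_eq with h | h
  · have h1 := hG.2 t t' h.le
    have h2 : τ t * (t' - t) ≤ τ t' * (t' - t) := h1.1.trans h1.2
    exact le_of_mul_le_mul_right h2 (by linarith)
  · rw [h]

/-- the slopes over a dyadic interval differ by at most `trn` -/
theorem fus_trn {φ τ : ℝ → ℝ} (hG : Graph φ τ) {w j : ℕ} (hj : j < 2 ^ w) {t : ℝ}
    (ht1 : (j : ℝ) / 2 ^ w ≤ t) (ht2 : t < ((j : ℝ) + 1) / 2 ^ w) :
    |τ (tm w j) - τ t| ≤ trn τ w j := by
  have hp : (0 : ℝ) < 2 ^ w := by positivity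
  have hj1 : ((j : ℝ) + 1) ≤ 2 ^ w := by exact_mod_cast hj
  have e1 : (j : ℝ) ≤ t * 2 ^ w := by rwa [div_le_iff₀ hp] at ht1
  have e2 : t * 2 ^ w < (j : ℝ) + 1 := by rwa [lt_div_iff₀ hp] at ht2
  have hl : max 0 (((j : ℝ) - 1) / 2 ^ w) ≤ min t (tm w j) := by
    unfold tm
    refine max_le (le_min ?_ (by positivity)) (le_min ?_ ?_)
    · exact le_trans (by positivity) ht1
    · rw [div_le_iff₀ hp]; linarith
    · exact div_le_div_of_nonneg_right (by linarith) hp.le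
  have hr : max t (tm w j) ≤ min 1 (((j : ℝ) + 2) / 2 ^ w) := by
    unfold tm
    refine max_le (le_min ?_ ?_) (le_min ?_ ?_)
    · have : t * 2 ^ w ≤ 1 * 2 ^ w := by linarith
      exact le_of_mul_le_mul_right this hp
    · rw [le_div_iff₀ hp]; linarith
    · rw [div_le_one hp]; linarith
    · exact div_le_div_of_nonneg_right (by linarith) hp.le
  have h1 := fus_graph_mono hG (hl.trans (min_le_left _ _))
  have h2 := fus_graph_mono hG (hl.trans (min_le_right _ _))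
  have h3 := fus_graph_mono hG ((le_max_left _ _).trans hr)
  have h4 := fus_graph_mono hG ((le_max_right _ _).trans hr)
  unfold trn
  rw [abs_le]
  constructor <;> linarith

theorem fus_pt (hMM : Pool.Agent.Helper20.RG.StMM) (hGPG : Pool.Agent.Helper68.EP.StGPG)
    {A p : ℝ} (hA : 0 < A) (hp1 : 1 < p) (hp2 : p < 2) {φ τ : ℝ → ℝ} (hG : Graph φ τ)
    (hGap : GapP A p τ) {P : Par} (hS : Sy P (dat τ)) {e al : ℝ} {R Y β : ℤ}
    {w q i j : ℕ} (hw : 1 ≤ w) (hq : 3 ≤ q) (hwq : w ≤ 2 ^ (q - 3)) (hC : Cfg p e R Y β w q i)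
    (hj : j ∈ Jc p (dat τ) al β w q i) {t : ℝ}
    (ht1 : (j : ℝ) / 2 ^ w ≤ t) (ht2 : t < ((j : ℝ) + 1) / 2 ^ w) :
    (2 : ℝ) ^ (-(2 * sz R Y β) - 8) ≤ (2 : ℝ) ^ (q - 3) * (dat τ).ell (τ t) (2 ^ (q - 3)) ^ p := by
  obtain ⟨hj0, hj1, hj2, -⟩ := hj
  have hfl : (dat τ).fl w j = mm τ w j := rfl
  have hsl : (dat τ).sl w j = τ (tm w j) := rfl
  rw [hfl] at hj1
  rw [hsl] at hj2
  have hA' : 0 < A ^ (1 / p) := Real.rpow_pos_of_pos hA _
  obtain ⟨m1, m2, m3, -⟩ := hMM φ τ (A ^ (1 / p)) p hG (hGPG τ A p hA (by linarith) hGap) hA'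
    (by linarith) w j hw hj0
  have h1 := fus_trn hG hj0 ht1 ht2
  -- exponents
  obtain ⟨x, hx⟩ : ∃ x, x = 2 ^ (q - 3) := ⟨_, rfl⟩
  have hx1 : 1 ≤ x := by rw [hx]; exact Nat.one_le_two_pow
  have hx2 : 2 ^ (q - 2) = 2 * x := by
    rw [hx, show q - 2 = (q - 3) + 1 by omega, pow_succ, mul_comm]
  have hx8 : 2 ^ q = 8 * x := by
    rw [hx]
    conv_lhs => rw [show q = (q - 3) + 3 by omega, pow_add]
    ring
  have htr : trn τ w j ≤ (2 : ℝ) ^ (-(((2 * x - 1 : ℕ) : ℤ) + 1)) := by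
    have a1 : (2 : ℝ) ^ (8 * x) ≤ (2 : ℝ) ^ (mm τ w j) :=
      pow_le_pow_right₀ (by norm_num) (by rw [← hx8]; exact hj1)
    have a2 : (2 : ℝ) ^ (8 * x) * trn τ w j ≤ (2 : ℝ) ^ w :=
      (mul_le_mul_of_nonneg_right a1 m1.le).trans m3
    have a3 : (2 : ℝ) ^ w ≤ (2 : ℝ) ^ x := pow_le_pow_right₀ (by norm_num) (by rw [hx]; exact hwq)
    have a4 : (2 : ℝ) ^ (8 * x) = (2 : ℝ) ^ (2 * x) * ((2 : ℝ) ^ x * (2 : ℝ) ^ (5 * x)) := by
      rw [← pow_add, ← pow_add]; congr 1; ring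
    have a5 : (2 : ℝ) ^ (2 * x) * trn τ w j ≤ 1 := by
      have b1 : (2 : ℝ) ^ x * ((2 : ℝ) ^ (2 * x) * trn τ w j) ≤ (2 : ℝ) ^ x * 1 := by
        have b2 : (1 : ℝ) ≤ (2 : ℝ) ^ (5 * x) := one_le_pow₀ (by norm_num)
        have b3 : 0 ≤ (2 : ℝ) ^ x * ((2 : ℝ) ^ (2 * x) * trn τ w j) := by positivity
        calc (2 : ℝ) ^ x * ((2 : ℝ) ^ (2 * x) * trn τ w j)
            ≤ (2 : ℝ) ^ x * ((2 : ℝ) ^ (2 * x) * trn τ w j) * (2 : ℝ) ^ (5 * x) :=
              le_mul_of_one_le_right b3 b2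
          _ = (2 : ℝ) ^ (8 * x) * trn τ w j := by rw [a4]; ring
          _ ≤ (2 : ℝ) ^ x * 1 := by linarith
      exact le_of_mul_le_mul_left b1 (by positivity)
    have a6 : (2 : ℝ) ^ (-(((2 * x - 1 : ℕ) : ℤ) + 1)) = ((2 : ℝ) ^ (2 * x))⁻¹ := by
      have : (((2 * x - 1 : ℕ) : ℤ) + 1) = ((2 * x : ℕ) : ℤ) := by omega
      rw [this, zpow_neg, zpow_natCast]
    rw [a6, ← one_div, le_div_iff₀ (by positivity)]
    linarith
  have h2 := hS.shift (τ (tm w j)) (τ t) (2 * x - 1) (h1.trans htr)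
  rw [show 2 * x - 1 + 1 = 2 * x by omega] at h2
  have hanti : Antitone (fun n => (dat τ).ell (τ t) n) := antitone_nat_of_succ_le fun n => hS.mono _ n
  have h3 : (dat τ).ell (τ t) (2 * x - 1) ≤ (dat τ).ell (τ t) x := hanti (by omega)
  rw [hx2] at hj2
  have h4 : (2 : ℝ) ^ ((i : ℝ) + β - 1 - w) ≤ (dat τ).ell (τ t) x := by
    have b1 : (2 : ℝ) ^ ((i : ℝ) + β - 1 - w) * (2 : ℝ) ^ w = mb i β / 2 := by
      unfold mb
      rw [← Real.rpow_natCast, ← Real.rpow_add (by norm_num), ← Real.rpow_intCast]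
      have : (2 : ℝ) ^ (((i : ℤ) + β : ℤ) : ℝ) / 2 = (2 : ℝ) ^ ((((i : ℤ) + β : ℤ) : ℝ) - 1) := by
        rw [Real.rpow_sub (by norm_num), Real.rpow_one]
      rw [this]
      congr 1
      push_cast
      ring
    have b2 : (2 : ℝ) ^ ((i : ℝ) + β - 1 - w) * (2 : ℝ) ^ w ≤ (dat τ).ell (τ (tm w j)) (2 * x) * 2 ^ w := by
      rw [b1]; linarith
    exact (le_of_mul_le_mul_right b2 (by positivity)).trans (h2.trans h3)
  have h5 : (2 : ℝ) ^ (p * ((i : ℝ) + β - 1 - w)) ≤ (dat τ).ell (τ t) x ^ p := by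
    rw [mul_comm, Real.rpow_mul (by norm_num)]
    exact Real.rpow_le_rpow (by positivity) h4 (by linarith)
  have hq' := hC.hq
  have hi' := hC.hi
  have c1 : (p - 1) * w - 1 + R < (q : ℝ) := by
    have := Int.lt_floor_add_one ((p - 1) * w)
    have h6 : (q : ℝ) = (⌊(p - 1) * w⌋ : ℝ) + R := by exact_mod_cast congrArg (Int.cast : ℤ → ℝ) hq'
    rw [h6]; linarith
  have c2 : (w : ℝ) / p - 1 + Y < (i : ℝ) := by
    have := Int.lt_floor_add_one ((w : ℝ) / p)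
    have h6 : (i : ℝ) = (⌊(w : ℝ) / p⌋ : ℝ) + Y := by exact_mod_cast congrArg (Int.cast : ℤ → ℝ) hi'
    rw [h6]; linarith
  have c3 : p * ((w : ℝ) / p) = w := by field_simp
  have c4 : -(2 * sz R Y β) - 8 ≤ ((q - 3 : ℕ) : ℝ) + p * ((i : ℝ) + β - 1 - w) := by
    have d1 : ((q - 3 : ℕ) : ℝ) = (q : ℝ) - 3 := by
      rw [Nat.cast_sub hq]; norm_num
    have d2 : p * ((w : ℝ) / p - 1 + Y) ≤ p * i := mul_le_mul_of_nonneg_left c2.le (by linarith)
    have d3 : -(2 * |(Y : ℝ)|) ≤ p * Y := by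
      have := neg_abs_le (Y : ℝ)
      have h7 : |p * Y| ≤ 2 * |(Y : ℝ)| := by
        rw [abs_mul, abs_of_pos (by linarith : (0 : ℝ) < p)]
        exact mul_le_mul_of_nonneg_right hp2.le (abs_nonneg _)
      linarith [neg_abs_le (p * Y)]
    have d4 : -(2 * |(β : ℝ)|) ≤ p * β := by
      have h7 : |p * β| ≤ 2 * |(β : ℝ)| := by
        rw [abs_mul, abs_of_pos (by linarith : (0 : ℝ) < p)]
        exact mul_le_mul_of_nonneg_right hp2.le (abs_nonneg _)
      linarith [neg_abs_le (p * β)]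
    have d5 : -|(R : ℝ)| ≤ R := neg_abs_le _
    have d6 := abs_nonneg (R : ℝ)
    unfold sz
    rw [d1]
    nlinarith
  calc (2 : ℝ) ^ (-(2 * sz R Y β) - 8)
      ≤ (2 : ℝ) ^ (((q - 3 : ℕ) : ℝ) + p * ((i : ℝ) + β - 1 - w)) :=
        Real.rpow_le_rpow_of_exponent_le (by norm_num) c4
    _ = (2 : ℝ) ^ (q - 3) * (2 : ℝ) ^ (p * ((i : ℝ) + β - 1 - w)) := by
        rw [Real.rpow_add (by norm_num), Real.rpow_natCast]
    _ ≤ (2 : ℝ) ^ (q - 3) * (dat τ).ell (τ t) (2 ^ (q - 3)) ^ p := by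
        rw [← hx]
        exact mul_le_mul_of_nonneg_left h5 (by positivity)

/-- Module FUS. -/
theorem hFUS (hMM : Pool.Agent.Helper20.RG.StMM) (hGPG : Pool.Agent.Helper68.EP.StGPG) (hDYS : StDYS) :
    Pool.Agent.Helper68.ES.StFUS := by
  intro A p hA hp1 hp2
  obtain ⟨K, hK1, hK⟩ := hDYS p hp1
  refine ⟨2 + 256 * K * A, by nlinarith [mul_pos (by linarith : (0 : ℝ) < K) hA], ?_⟩
  intro φ τ P e al R Y β W q i hG hGap hPp hPA hS hW
  classical
  have hsz : 0 ≤ sz R Y β := by unfold sz; positivity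
  set δ : ℝ := (2 : ℝ) ^ (-(2 * sz R Y β) - 8) with hδ
  have hδ0 : 0 < δ := by positivity
  obtain ⟨N, hN⟩ : ∃ N : ℕ, ∀ w ∈ W, w ≤ N := ⟨W.sup id, fun w hw => Finset.le_sup (f := id) hw⟩
  set J : ℕ → Finset ℕ := fun w => Jf p (dat τ) al β w (q w) (i w) with hJ
  have hJm : ∀ w j, j ∈ J w → j ∈ Jc p (dat τ) al β w (q w) (i w) := by
    intro w j h
    rw [hJ] at h
    simp only [Jf, Finset.mem_filter] at h
    exact h.2
  -- lower bound
  have hlow : ∀ w ∈ W, (J w).card * 2 ^ (N - w) ≤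
      ((Finset.range (2 ^ N)).filter (fun m => m / 2 ^ (N - w) ∈ J w)).card := by
    intro w hw
    have h1 : (J w).card * 2 ^ (N - w) = ((J w) ×ˢ Finset.range (2 ^ (N - w))).card := by
      rw [Finset.card_product, Finset.card_range]
    rw [h1]
    have hpos : 0 < 2 ^ (N - w) := by positivity
    refine Finset.card_le_card_of_injOn (fun a => a.1 * 2 ^ (N - w) + a.2) ?_ ?_
    · intro a ha
      simp only [Finset.coe_product, Set.mem_prod, Finset.mem_coe, Finset.mem_range] at ha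
      simp only [Finset.coe_filter, Set.mem_ofPred_eq, Finset.mem_range]
      have h2 : a.1 < 2 ^ w := (hJm w a.1 ha.1).1
      constructor
      · calc a.1 * 2 ^ (N - w) + a.2 < a.1 * 2 ^ (N - w) + 2 ^ (N - w) := by omega
          _ = (a.1 + 1) * 2 ^ (N - w) := by ring
          _ ≤ 2 ^ w * 2 ^ (N - w) := Nat.mul_le_mul_right _ h2
          _ = 2 ^ N := by rw [← pow_add]; congr 1; have := hN w hw; omega
      · rw [mul_comm, Nat.mul_add_div hpos, Nat.div_eq_of_lt ha.2, add_zero]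
        exact ha.1
    · intro a ha b hb hab
      simp only [Finset.coe_product, Set.mem_prod, Finset.mem_coe, Finset.mem_range] at ha hb
      simp only at hab
      have h3 : a.1 = b.1 := by
        have h4 : (a.1 * 2 ^ (N - w) + a.2) / 2 ^ (N - w) = a.1 := by
          rw [mul_comm, Nat.mul_add_div hpos, Nat.div_eq_of_lt ha.2, add_zero]
        have h5 : (b.1 * 2 ^ (N - w) + b.2) / 2 ^ (N - w) = b.1 := by
          rw [mul_comm, Nat.mul_add_div hpos, Nat.div_eq_of_lt hb.2, add_zero]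
        rw [← h4, ← h5, hab]
      have h6 : a.2 = b.2 := by rw [h3] at hab; omega
      exact Prod.ext h3 h6
  -- upper bound
  have hup : ∀ m : ℕ, (((W.filter (fun w => m / 2 ^ (N - w) ∈ J w)).card : ℝ)) * δ ≤ K * A := by
    intro m
    have h1 := hK P (dat τ) e R Y β (W.filter (fun w => m / 2 ^ (N - w) ∈ J w)) q i
      (τ ((m : ℝ) / 2 ^ N)) 3 hPp hS (fun w hw => by
        have := hW w (Finset.mem_filter.1 hw).1
        exact ⟨this.2.1, this.2.2.2⟩)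
    rw [hPA] at h1
    refine le_trans ?_ h1
    rw [← nsmul_eq_mul, ← Finset.sum_const]
    refine Finset.sum_le_sum fun w hw => ?_
    obtain ⟨hw1, hw2⟩ := Finset.mem_filter.1 hw
    obtain ⟨g1, g2, g3, g4⟩ := hW w hw1
    have hpN : (0 : ℝ) < 2 ^ N := by positivity
    have hpw : (0 : ℝ) < 2 ^ w := by positivity
    have hpd : (0 : ℝ) < 2 ^ (N - w) := by positivity
    have hNw : (2 : ℝ) ^ N = 2 ^ w * 2 ^ (N - w) := by
      rw [← pow_add]; congr 1; have := hN w hw1; omega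
    have hd1 : (m / 2 ^ (N - w)) * 2 ^ (N - w) ≤ m := Nat.div_mul_le_self _ _
    have hd2 : m < (m / 2 ^ (N - w) + 1) * 2 ^ (N - w) := by
      rw [mul_comm]
      exact Nat.lt_mul_div_succ m (by positivity)
    have hd1' : ((m / 2 ^ (N - w) : ℕ) : ℝ) * 2 ^ (N - w) ≤ m := by exact_mod_cast hd1
    have hd2' : (m : ℝ) < (((m / 2 ^ (N - w) : ℕ) : ℝ) + 1) * 2 ^ (N - w) := by exact_mod_cast hd2
    refine fus_pt hMM hGPG hA hp1 hp2 hG hGap hS g1 g2 g3 g4 (hJm w _ hw2) ?_ ?_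
    · rw [div_le_div_iff₀ hpw hpN, hNw]
      nlinarith
    · rw [div_lt_div_iff₀ hpN hpw, hNw]
      nlinarith
  -- double counting
  have hsw : ∑ w ∈ W, ((Finset.range (2 ^ N)).filter (fun m => m / 2 ^ (N - w) ∈ J w)).card =
      ∑ m ∈ Finset.range (2 ^ N), (W.filter (fun w => m / 2 ^ (N - w) ∈ J w)).card := by
    simp only [Finset.card_filter]
    exact Finset.sum_comm
  have h1 : (∑ w ∈ W, ((J w).card : ℝ) * 2 ^ (N - w)) * δ ≤ 2 ^ N * (K * A) := by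
    have h2 : ∑ w ∈ W, ((J w).card : ℝ) * 2 ^ (N - w) ≤
        ∑ m ∈ Finset.range (2 ^ N), ((W.filter (fun w => m / 2 ^ (N - w) ∈ J w)).card : ℝ) := by
      have h3 : ∑ w ∈ W, (J w).card * 2 ^ (N - w) ≤
          ∑ m ∈ Finset.range (2 ^ N), (W.filter (fun w => m / 2 ^ (N - w) ∈ J w)).card := by
        rw [← hsw]
        exact Finset.sum_le_sum hlow
      exact_mod_cast h3
    calc (∑ w ∈ W, ((J w).card : ℝ) * 2 ^ (N - w)) * δ
        ≤ (∑ m ∈ Finset.range (2 ^ N), ((W.filter (fun w => m / 2 ^ (N - w) ∈ J w)).card : ℝ)) * δ :=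
          mul_le_mul_of_nonneg_right h2 hδ0.le
      _ = ∑ m ∈ Finset.range (2 ^ N), ((W.filter (fun w => m / 2 ^ (N - w) ∈ J w)).card : ℝ) * δ := by
          rw [Finset.sum_mul]
      _ ≤ ∑ _m ∈ Finset.range (2 ^ N), K * A := Finset.sum_le_sum fun m _ => hup m
      _ = 2 ^ N * (K * A) := by
          rw [Finset.sum_const, Finset.card_range, nsmul_eq_mul]; push_cast; ring
  have h2 : ∑ w ∈ W, ((J w).card : ℝ) * (2 : ℝ) ^ (-(w : ℤ)) =
      (∑ w ∈ W, ((J w).card : ℝ) * 2 ^ (N - w)) / 2 ^ N := by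
    rw [Finset.sum_div]
    refine Finset.sum_congr rfl fun w hw => ?_
    have hNw : (2 : ℝ) ^ N = 2 ^ w * 2 ^ (N - w) := by
      rw [← pow_add]; congr 1; have := hN w hw; omega
    rw [hNw, zpow_neg, zpow_natCast]
    field_simp
  rw [h2, div_le_iff₀ (by positivity)]
  have h3 : ∑ w ∈ W, ((J w).card : ℝ) * 2 ^ (N - w) ≤ 2 ^ N * (K * A) / δ := by
    rw [le_div_iff₀ hδ0]; exact h1
  refine h3.trans ?_
  have h4 : δ⁻¹ = 256 * (2 : ℝ) ^ (2 * sz R Y β) := by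
    rw [hδ, ← Real.rpow_neg (by norm_num), show -(-(2 * sz R Y β) - 8) = 2 * sz R Y β + 8 by ring,
      Real.rpow_add (by norm_num)]
    have := Real.rpow_natCast (2 : ℝ) 8
    norm_num at this ⊢
    ring
  have h5 : (2 : ℝ) ^ (2 * sz R Y β) ≤ (2 : ℝ) ^ ((2 + 256 * K * A) * sz R Y β) := by
    refine Real.rpow_le_rpow_of_exponent_le (by norm_num) ?_
    refine mul_le_mul_of_nonneg_right ?_ hsz
    have : 0 ≤ 256 * K * A := by positivity
    linarith
  have hKA : 0 ≤ K * A := by positivity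
  have hN0 : (0 : ℝ) ≤ 2 ^ N := by positivity
  calc 2 ^ N * (K * A) / δ = 2 ^ N * (K * A) * δ⁻¹ := by rw [div_eq_mul_inv]
    _ = 256 * (K * A) * (2 : ℝ) ^ (2 * sz R Y β) * 2 ^ N := by rw [h4]; ring
    _ ≤ (2 + 256 * K * A) * (2 : ℝ) ^ ((2 + 256 * K * A) * sz R Y β) * 2 ^ N := by
        refine mul_le_mul_of_nonneg_right ?_ hN0
        refine mul_le_mul (by linarith) h5 (by positivity) (by positivity)

end Pool.Agent.Helper82.ES
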