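import Pool.Agent.Helper68.ES.St4

/-!
# Project ES (MP_cb927e_an), module LVA: classes of the same size
-/

set_option autoImplicit false

namespace Pool.Agent.Helper82.ES

open Pool.Agent.Helper68.ES Pool.Agent.Helper68.EP Pool.Agent.Helper20.RG
open Pool.Agent.Helper20.RL (RQ Rich BM Fml Hit)
open Pool.Agent.Helper68.LM (Pl BB Bd Av HL ft fm DQ)
open MeasureTheory Set Filter Topology
open scoped ENNReal

theorem lva_geo {r : ℝ} (hr0 : 0 ≤ r) (hr1 : r < 1) (M : ℕ) : ∑ k ∈ Finset.range M, r ^ k ≤ 1 / (1 - r) := by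
  rw [le_div_iff₀ (by linarith), geom_sum_mul_neg]
  linarith [pow_nonneg hr0 M]

/-- sums of the truncated geometric sequence -/
theorem lva_sum {η Φ ρ : ℝ} (hη : 0 < η) (hΦ : 1 ≤ Φ) (hρ : 0 < ρ) (hρΦ : ρ ≤ Φ) (T : Finset ℕ) :
    ∑ v ∈ T, min ρ (2 * Φ * (2 : ℝ) ^ (-(η * v))) ≤
      ρ * ((1 + Real.logb 2 (Φ / ρ)) / η + 1 + 1 / (1 - (2 : ℝ) ^ (-η))) := by
  have hl0 : 0 ≤ Real.logb 2 (Φ / ρ) :=
    Real.logb_nonneg (by norm_num) (by rw [one_le_div hρ]; exact hρΦ)
  set lam := Real.logb 2 (Φ / ρ) with hlam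
  have hpow : (2 : ℝ) ^ lam = Φ / ρ :=
    Real.rpow_logb (by norm_num) (by norm_num) (div_pos (by linarith) hρ)
  set v₀ := ⌈(1 + lam) / η⌉₊ with hv₀
  have hv1 : (1 + lam) / η ≤ v₀ := Nat.le_ceil _
  have hv2 : (v₀ : ℝ) < (1 + lam) / η + 1 := Nat.ceil_lt_add_one (by positivity)
  set r : ℝ := (2 : ℝ) ^ (-η) with hr
  have hr0 : 0 < r := by positivity
  have hr1 : r < 1 := by
    rw [hr]; exact Real.rpow_lt_one_of_one_lt_of_neg (by norm_num) (by linarith)
  have hle : ∀ v : ℕ, min ρ (2 * Φ * (2 : ℝ) ^ (-(η * v))) ≤ if v < v₀ then ρ else ρ * r ^ (v - v₀) := by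
    intro v
    split_ifs with h
    · exact min_le_left _ _
    · push Not at h
      refine (min_le_right _ _).trans ?_
      have e1 : r ^ (v - v₀) = (2 : ℝ) ^ (-(η * ((v : ℝ) - v₀))) := by
        rw [hr, ← Real.rpow_natCast, ← Real.rpow_mul (by norm_num), Nat.cast_sub h]
        congr 1; ring
      have e2 : 2 * Φ * (2 : ℝ) ^ (-(η * v)) = ρ * (2 : ℝ) ^ (1 + lam - η * v) := by
        rw [show 1 + lam - η * v = 1 + lam + -(η * v) by ring, Real.rpow_add (by norm_num),
          Real.rpow_add (by norm_num), hpow, Real.rpow_one]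
        field_simp
      rw [e1, e2]
      refine mul_le_mul_of_nonneg_left ?_ hρ.le
      refine Real.rpow_le_rpow_of_exponent_le (by norm_num) ?_
      have e3 : 1 + lam ≤ η * v₀ := by
        rw [div_le_iff₀ hη] at hv1; linarith
      nlinarith
  obtain ⟨M, hM⟩ : ∃ M : ℕ, T ⊆ Finset.range (v₀ + M) := by
    obtain ⟨M, hM⟩ := T.exists_nat_subset_range
    exact ⟨M, hM.trans (Finset.range_mono (by omega))⟩
  have hnn : ∀ v : ℕ, 0 ≤ if v < v₀ then ρ else ρ * r ^ (v - v₀) := by
    intro v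
    split_ifs
    · exact hρ.le
    · positivity
  calc ∑ v ∈ T, min ρ (2 * Φ * (2 : ℝ) ^ (-(η * v)))
      ≤ ∑ v ∈ T, (if v < v₀ then ρ else ρ * r ^ (v - v₀)) := Finset.sum_le_sum fun v _ => hle v
    _ ≤ ∑ v ∈ Finset.range (v₀ + M), (if v < v₀ then ρ else ρ * r ^ (v - v₀)) :=
        Finset.sum_le_sum_of_subset_of_nonneg hM fun v _ _ => hnn v
    _ = v₀ * ρ + ∑ k ∈ Finset.range M, ρ * r ^ k := by
        rw [Finset.sum_range_add]
        congr 1
        · rw [Finset.sum_congr rfl (fun v hv => if_pos (Finset.mem_range.1 hv)), Finset.sum_const,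
            Finset.card_range, nsmul_eq_mul]
        · refine Finset.sum_congr rfl fun k _ => ?_
          rw [if_neg (by omega), show v₀ + k - v₀ = k by omega]
    _ ≤ v₀ * ρ + ρ * (1 / (1 - r)) := by
        rw [← Finset.mul_sum]
        have := mul_le_mul_of_nonneg_left (lva_geo hr0.le hr1 M) hρ.le
        linarith
    _ ≤ ρ * ((1 + lam) / η + 1 + 1 / (1 - r)) := by nlinarith

theorem lva_min {ρ x y : ℝ} (hρ : 0 < ρ) (hx : 0 ≤ x) (hy : 0 ≤ y) :
    min ρ (x + y) ≤ min ρ x + min ρ y := by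
  rcases le_total ρ x with h | h
  · have : 0 ≤ min ρ y := le_min hρ.le hy
    rw [min_eq_left h]
    exact (min_le_left _ _).trans (by linarith)
  · rcases le_total ρ y with h' | h'
    · have : 0 ≤ min ρ x := le_min hρ.le hx
      rw [min_eq_left h']
      exact (min_le_left _ _).trans (by linarith)
    · rw [min_eq_right h, min_eq_right h']
      exact min_le_right _ _

theorem lva_amgm {B : ℝ} (hB : 0 ≤ B) {x : ℝ≥0∞} (hx : x ≠ ⊤) :
    ENNReal.ofReal (2 * B) * x ≤ x ^ 2 + ENNReal.ofReal (B ^ 2) := by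
  obtain ⟨f, rfl⟩ : ∃ f : NNReal, x = f := ⟨x.toNNReal, (ENNReal.coe_toNNReal hx).symm⟩
  have h1 : ((f : NNReal) : ℝ≥0∞) = ENNReal.ofReal (f : ℝ) := (ENNReal.ofReal_coe_nnreal).symm
  rw [h1, ← ENNReal.ofReal_pow f.coe_nonneg, ← ENNReal.ofReal_mul (by linarith),
    ← ENNReal.ofReal_add (by positivity) (by positivity)]
  refine ENNReal.ofReal_le_ofReal ?_
  nlinarith [sq_nonneg ((f : ℝ) - B)]

/-- Module LVA. -/
theorem hLVA : Pool.Agent.Helper68.ES.StLVA := by
  intro η hη hη1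
  have hr1 : (2 : ℝ) ^ (-η) < 1 := Real.rpow_lt_one_of_one_lt_of_neg (by norm_num) (by linarith)
  set K : ℝ := 1 / η + 1 + 1 / (1 - (2 : ℝ) ^ (-η)) with hK
  have hK0 : 0 < K := by
    have : 0 < 1 / (1 - (2 : ℝ) ^ (-η)) := by
      apply div_pos one_pos; linarith
    positivity
  refine ⟨1 + 8 * K, by linarith, ?_⟩
  intro G E c Φ ρ h hE hΦ hρ hρΦ hh hc hcc
  classical
  have hEm : MeasurableSet E := hE.1
  have hEf : volume E ≠ ⊤ := by
    rcases hE with ⟨_, h2⟩
    exact h2.measure_lt_top.ne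
  set lam := Real.logb 2 (Φ / ρ) with hlam
  have hl0 : 0 ≤ lam := Real.logb_nonneg (by norm_num) (by rw [one_le_div hρ]; exact hρΦ)
  obtain ⟨S, hS⟩ : ∃ S : ℝ, S = ρ * ((1 + lam) / η + 1 + 1 / (1 - (2 : ℝ) ^ (-η))) := ⟨_, rfl⟩
  have hS0 : 0 ≤ S := by
    have h1 : 0 < 1 / (1 - (2 : ℝ) ^ (-η)) := by
      apply div_pos one_pos; linarith
    have h2 : 0 ≤ (1 + lam) / η := by positivity
    rw [hS]; positivity
  set m : ℕ → ℝ := fun v => min ρ (2 * Φ * (2 : ℝ) ^ (-(η * v))) with hm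
  have hm0 : ∀ v, 0 ≤ m v := fun v => le_min hρ.le (by positivity)
  have hmS : ∀ T : Finset ℕ, ∑ v ∈ T, m v ≤ S := fun T => by
    rw [hS]; exact lva_sum hη hΦ hρ hρΦ T
  -- pairs
  have hpair : ∀ w ∈ G, ∀ u ∈ G, w < u → ∫⁻ z, c w z * c u z ≤
      ENNReal.ofReal (2 * h * (m w + m (u - w))) * volume E := by
    intro w hw u hu hwu
    obtain ⟨cm, cs, cb, cl, cu⟩ := hc w hw
    obtain ⟨dm, ds, db, dl, du⟩ := hc u hu
    have b1 : ∫⁻ z, c w z * c u z ≤ ENNReal.ofReal (2 * h * ρ) * volume E := by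
      calc ∫⁻ z, c w z * c u z ≤ ∫⁻ z, ENNReal.ofReal ρ * c u z :=
            lintegral_mono fun z => mul_le_mul_left (cb z) _
        _ = ENNReal.ofReal ρ * ∫⁻ z, c u z := lintegral_const_mul _ dm
        _ ≤ ENNReal.ofReal ρ * (ENNReal.ofReal (2 * h) * volume E) := mul_le_mul_right du _
        _ = ENNReal.ofReal (2 * h * ρ) * volume E := by
            rw [← mul_assoc, ← ENNReal.ofReal_mul hρ.le]; congr 2; ring
    set δ : ℝ := Φ * ((2 : ℝ) ^ (-(η * w)) + (2 : ℝ) ^ (-(η * ((u : ℝ) - w)))) with hδ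
    have hδ0 : 0 ≤ δ := by positivity
    have b2 : ∫⁻ z, c w z * c u z ≤ ENNReal.ofReal (2 * h * (2 * δ)) * volume E := by
      calc ∫⁻ z, c w z * c u z ≤ ENNReal.ofReal δ * ((∫⁻ z, c w z) + ∫⁻ z, c u z) := hcc w hw u hu hwu
        _ ≤ ENNReal.ofReal δ * (ENNReal.ofReal (2 * h) * volume E + ENNReal.ofReal (2 * h) * volume E) :=
            mul_le_mul_right (add_le_add cu du) _
        _ = ENNReal.ofReal (2 * h * (2 * δ)) * volume E := by
            rw [← add_mul, ← ENNReal.ofReal_add (by positivity) (by positivity), ← mul_assoc,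
              ← ENNReal.ofReal_mul hδ0]
            congr 2; ring
    have b3 : min ρ (2 * δ) ≤ m w + m (u - w) := by
      have e1 : 2 * δ = 2 * Φ * (2 : ℝ) ^ (-(η * w)) + 2 * Φ * (2 : ℝ) ^ (-(η * ((u - w : ℕ) : ℝ))) := by
        rw [hδ, Nat.cast_sub hwu.le]; ring
      rw [e1]
      exact lva_min hρ (by positivity) (by positivity)
    have b4 : ∫⁻ z, c w z * c u z ≤ ENNReal.ofReal (2 * h * min ρ (2 * δ)) * volume E := by
      rcases le_total ρ (2 * δ) with h' | h'
      · rw [min_eq_left h']; exact b1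
      · rw [min_eq_right h']; exact b2
    exact b4.trans (mul_le_mul_left (ENNReal.ofReal_le_ofReal
      (mul_le_mul_of_nonneg_left b3 (by positivity))) _)
  -- one class against the smaller ones
  have hrow : ∀ u ∈ G, ∑ w ∈ G.filter (fun w => w < u), ∫⁻ z, c w z * c u z ≤
      ENNReal.ofReal (4 * S) * ∫⁻ z, c u z := by
    intro u hu
    obtain ⟨dm, ds, db, dl, du⟩ := hc u hu
    calc ∑ w ∈ G.filter (fun w => w < u), ∫⁻ z, c w z * c u z
        ≤ ∑ w ∈ G.filter (fun w => w < u), ENNReal.ofReal (2 * h * (m w + m (u - w))) * volume E := by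
          refine Finset.sum_le_sum fun w hw => ?_
          obtain ⟨h1, h2⟩ := Finset.mem_filter.1 hw
          exact hpair w h1 u hu h2
      _ = ENNReal.ofReal (∑ w ∈ G.filter (fun w => w < u), 2 * h * (m w + m (u - w))) * volume E := by
          rw [← Finset.sum_mul, ENNReal.ofReal_sum_of_nonneg]
          intro w _
          have := hm0 w
          have := hm0 (u - w)
          positivity
      _ ≤ ENNReal.ofReal (4 * S * h) * volume E := by
          refine mul_le_mul_left (ENNReal.ofReal_le_ofReal ?_) _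
          rw [← Finset.mul_sum, Finset.sum_add_distrib]
          have e1 := hmS (G.filter (fun w => w < u))
          have e2 : ∑ w ∈ G.filter (fun w => w < u), m (u - w) ≤ S := by
            have e3 : ∑ w ∈ G.filter (fun w => w < u), m (u - w) =
                ∑ v ∈ (G.filter (fun w => w < u)).image (fun w => u - w), m v := by
              rw [Finset.sum_image]
              intro a ha b hb hab
              have ha' : a < u := (Finset.mem_filter.1 ha).2
              have hb' : b < u := (Finset.mem_filter.1 hb).2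
              simp only at hab
              omega
            rw [e3]
            exact hmS _
          nlinarith
      _ = ENNReal.ofReal (4 * S) * (ENNReal.ofReal h * volume E) := by
          rw [← mul_assoc, ← ENNReal.ofReal_mul (by positivity)]
      _ ≤ ENNReal.ofReal (4 * S) * ∫⁻ z, c u z := mul_le_mul_right dl _
  -- the square
  set I : ℝ≥0∞ := ∑ w ∈ G, ∫⁻ z, c w z with hI
  have hIf : I ≠ ⊤ := by
    rw [hI]
    refine ENNReal.sum_ne_top.2 fun w hw => ?_
    exact ne_top_of_le_ne_top (ENNReal.mul_ne_top ENNReal.ofReal_ne_top hEf) (hc w hw).2.2.2.2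
  set F : Pl → ℝ≥0∞ := fun z => ∑ w ∈ G, c w z with hF
  have hFm : Measurable F := Finset.measurable_sum _ fun w hw => (hc w hw).1
  have hFI : ∫⁻ z, F z = I := by
    rw [hF, hI, lintegral_finsetSum' _ fun w hw => (hc w hw).1.aemeasurable]
  have hdiag : ∀ w ∈ G, ∫⁻ z, c w z * c w z ≤ ENNReal.ofReal ρ * ∫⁻ z, c w z := by
    intro w hw
    obtain ⟨cm, cs, cb, cl, cu⟩ := hc w hw
    calc ∫⁻ z, c w z * c w z ≤ ∫⁻ z, ENNReal.ofReal ρ * c w z :=
          lintegral_mono fun z => mul_le_mul_left (cb z) _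
      _ = ENNReal.ofReal ρ * ∫⁻ z, c w z := lintegral_const_mul _ cm
  have hsq : ∫⁻ z, F z ^ 2 = ∑ u ∈ G, ∑ w ∈ G, ∫⁻ z, c w z * c u z := by
    have e1 : ∀ z, F z ^ 2 = ∑ u ∈ G, ∑ w ∈ G, c w z * c u z := by
      intro z
      rw [hF, sq, Finset.sum_mul_sum, Finset.sum_comm]
    rw [lintegral_congr e1, lintegral_finsetSum' (f := fun u z => ∑ w ∈ G, c w z * c u z) _ fun u hu =>
      (Finset.measurable_fun_sum _ fun w hw => (hc w hw).1.mul (hc u hu).1).aemeasurable]
    refine Finset.sum_congr rfl fun u hu => ?_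
    rw [lintegral_finsetSum' (f := fun w z => c w z * c u z) _
      fun w hw => ((hc w hw).1.mul (hc u hu).1).aemeasurable]
  have hsq2 : ∫⁻ z, F z ^ 2 ≤ ENNReal.ofReal (ρ + 8 * S) * I := by
    have e0 : ∀ u ∈ G, ∑ w ∈ G, ∫⁻ z, c w z * c u z =
        (∫⁻ z, c u z * c u z) + (∑ w ∈ G.filter (fun w => w < u), ∫⁻ z, c w z * c u z) +
          ∑ w ∈ G.filter (fun w => u < w), ∫⁻ z, c w z * c u z := by
      intro u hu
      have f1 : ∑ w ∈ G, ∫⁻ z, c w z * c u z =
          ∑ w ∈ G, ((if w = u then ∫⁻ z, c u z * c u z else 0) +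
            (if w < u then ∫⁻ z, c w z * c u z else 0) + (if u < w then ∫⁻ z, c w z * c u z else 0)) := by
        refine Finset.sum_congr rfl fun w _ => ?_
        rcases lt_trichotomy w u with h1 | h1 | h1
        · rw [if_neg h1.ne, if_pos h1, if_neg h1.not_gt, zero_add, add_zero]
        · subst h1
          rw [if_pos rfl, if_neg (lt_irrefl w), add_zero, add_zero]
        · rw [if_neg h1.ne', if_neg h1.not_gt, if_pos h1]; simp
      rw [f1, Finset.sum_add_distrib, Finset.sum_add_distrib, Finset.sum_ite_eq' G u, if_pos hu,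
        Finset.sum_filter, Finset.sum_filter]
    have e1 : ∑ u ∈ G, ∑ w ∈ G.filter (fun w => u < w), ∫⁻ z, c w z * c u z =
        ∑ u ∈ G, ∑ w ∈ G.filter (fun w => w < u), ∫⁻ z, c w z * c u z := by
      simp only [Finset.sum_filter]
      rw [Finset.sum_comm]
      refine Finset.sum_congr rfl fun u _ => Finset.sum_congr rfl fun w _ => ?_
      simp only [mul_comm]
    rw [hsq, Finset.sum_congr rfl e0, Finset.sum_add_distrib, Finset.sum_add_distrib, e1]
    have e2 : ∑ u ∈ G, ∫⁻ z, c u z * c u z ≤ ENNReal.ofReal ρ * I := by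
      rw [hI, Finset.mul_sum]; exact Finset.sum_le_sum hdiag
    have e3 : ∑ u ∈ G, ∑ w ∈ G.filter (fun w => w < u), ∫⁻ z, c w z * c u z ≤ ENNReal.ofReal (4 * S) * I := by
      rw [hI, Finset.mul_sum]; exact Finset.sum_le_sum hrow
    calc _ ≤ ENNReal.ofReal ρ * I + ENNReal.ofReal (4 * S) * I + ENNReal.ofReal (4 * S) * I :=
          add_le_add (add_le_add e2 e3) e3
      _ = ENNReal.ofReal (ρ + 8 * S) * I := by
          rw [← add_mul, ← add_mul, ← ENNReal.ofReal_add hρ.le (by positivity),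
            ← ENNReal.ofReal_add (by positivity) (by positivity)]
          congr 2; ring
  -- conclusion
  set B : ℝ := ρ + 8 * S with hB
  have hB0 : 0 < B := by positivity
  have hfin : ∀ z, F z ≠ ⊤ := by
    intro z
    refine ENNReal.sum_ne_top.2 fun w hw => ?_
    exact ne_top_of_le_ne_top ENNReal.ofReal_ne_top ((hc w hw).2.2.1 z)
  have hpt : ∀ z, ENNReal.ofReal (2 * B) * F z ≤ F z ^ 2 + E.indicator (fun _ => ENNReal.ofReal (B ^ 2)) z := by
    intro z
    by_cases hz : z ∈ E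
    · rw [indicator_of_mem hz]
      exact lva_amgm hB0.le (hfin z)
    · have : F z = 0 := by
        refine Finset.sum_eq_zero fun w hw => ?_
        by_contra hne
        exact hz ((hc w hw).2.1 z hne)
      rw [this]; simp
  have hmain : ENNReal.ofReal (2 * B) * I ≤ ENNReal.ofReal B * I + ENNReal.ofReal (B ^ 2) * volume E := by
    calc ENNReal.ofReal (2 * B) * I = ∫⁻ z, ENNReal.ofReal (2 * B) * F z := by
          rw [lintegral_const_mul _ hFm, hFI]
      _ ≤ ∫⁻ z, (F z ^ 2 + E.indicator (fun _ => ENNReal.ofReal (B ^ 2)) z) := lintegral_mono hpt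
      _ = (∫⁻ z, F z ^ 2) + ENNReal.ofReal (B ^ 2) * volume E := by
          rw [lintegral_add_left (hFm.pow_const 2), lintegral_indicator_const hEm]
      _ ≤ ENNReal.ofReal B * I + ENNReal.ofReal (B ^ 2) * volume E := add_le_add_left hsq2 _
  have hBI : ENNReal.ofReal B * I ≤ ENNReal.ofReal B * (ENNReal.ofReal B * volume E) := by
    have e1 : ENNReal.ofReal (2 * B) * I = ENNReal.ofReal B * I + ENNReal.ofReal B * I := by
      rw [← add_mul, ← ENNReal.ofReal_add hB0.le hB0.le]; congr 2; ring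
    rw [e1] at hmain
    have e2 := (ENNReal.add_le_add_iff_left (ENNReal.mul_ne_top ENNReal.ofReal_ne_top hIf)).1 hmain
    refine e2.trans (le_of_eq ?_)
    rw [← mul_assoc, ← ENNReal.ofReal_mul hB0.le, sq]
  have hIB : I ≤ ENNReal.ofReal B * volume E := by
    refine (ENNReal.mul_le_mul_iff_right ?_ ENNReal.ofReal_ne_top).1 hBI
    rw [ne_eq, ENNReal.ofReal_eq_zero]; linarith
  refine hIB.trans (mul_le_mul_left (ENNReal.ofReal_le_ofReal ?_) _)
  have e1 : S ≤ ρ * (K * (1 + lam)) := by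
    rw [hS]
    refine mul_le_mul_of_nonneg_left ?_ hρ.le
    rw [hK]
    have h1 : 0 < 1 / (1 - (2 : ℝ) ^ (-η)) := by
      apply div_pos one_pos; linarith
    have h2 : (1 + lam) / η = 1 / η * (1 + lam) := by ring
    rw [h2]
    nlinarith
  rw [hB]
  nlinarith [mul_nonneg hρ.le hl0]

end Pool.Agent.Helper82.ES
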