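import Pool.Agent.Helper68.ES.St2

/-!
# Project ES (MP_cb927e_an), module KPF: the exit scale
-/

set_option autoImplicit false

open MeasureTheory Set Filter Topology
open scoped ENNReal RealInnerProductSpace

namespace Pool.Agent.Helper82.ES

open Pool.Agent.Helper68.ES Pool.Agent.Helper68.EP Pool.Agent.Helper20.RG
open Pool.Agent.Helper20.RL (RQ Rich BM Fml Hit)
open Pool.Agent.Helper68.LM (Pl BB Bd Av HL ft fm DQ)

/-- A large scale at which a set of finite measure has density at most `D`. -/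
theorem exists_scale {E : Set Pl} (hE : volume E < ⊤) {D : ℝ} (hD : 0 < D) :
    ∃ b : ℤ, ∀ b' : ℤ, b ≤ b' → ∀ S : Set Pl,
      volume (E ∩ S) ≤ ENNReal.ofReal (D * (4 : ℝ) ^ b') := by
  obtain ⟨n, hn⟩ := pow_unbounded_of_one_lt ((volume E).toReal / D) (by norm_num : (1 : ℝ) < 4)
  refine ⟨(n : ℤ), fun b' hb' S => ?_⟩
  refine (measure_mono inter_subset_left).trans ?_
  rw [← ENNReal.ofReal_toReal hE.ne]
  apply ENNReal.ofReal_le_ofReal
  rw [div_lt_iff₀ hD] at hn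
  have h1 : (4 : ℝ) ^ n ≤ (4 : ℝ) ^ b' := by
    rw [← zpow_natCast]
    exact zpow_le_zpow_right₀ (by norm_num) hb'
  calc (volume E).toReal ≤ (4 : ℝ) ^ n * D := hn.le
    _ ≤ (4 : ℝ) ^ b' * D := mul_le_mul_of_nonneg_right h1 hD.le
    _ = D * (4 : ℝ) ^ b' := mul_comm _ _

theorem hKPF (hEFB : Pool.Agent.Helper68.EP.StEFB) : Pool.Agent.Helper68.ES.StKPF := by
  intro H E D' D hH hE hHE hD' hD hex
  obtain ⟨hF1, hF2, -, -, -⟩ := hEFB
  have key : ∀ z ∈ H, ∀ b : ℤ, kp H E D' D z ≤ b ↔ z ∈ Fb H D' b ∧ z ∈ Fb E D b := by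
    intro z hz b
    set S : Set ℤ := {b : ℤ | z ∈ Fb H D' b ∧ z ∈ Fb E D b} with hS
    have hup : ∀ a a' : ℤ, a ∈ S → a ≤ a' → a' ∈ S := by
      intro a a' ha haa
      exact ⟨hF2 H D' D' a a' haa le_rfl ha.1, hF2 E D D a a' haa le_rfl ha.2⟩
    have hne : S.Nonempty := by
      obtain ⟨b₁, hb₁⟩ := exists_scale (E := H) (hH.2.measure_lt_top) hD'
      obtain ⟨b₂, hb₂⟩ := exists_scale (E := E) (hE.2.measure_lt_top) hD
      refine ⟨max b₁ b₂, ⟨hz, fun b' hb' => ?_⟩, ⟨hHE hz, fun b' hb' => ?_⟩⟩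
      · exact hb₁ b' ((le_max_left _ _).trans hb') _
      · exact hb₂ b' ((le_max_right _ _).trans hb') _
    have hbd : BddBelow S := by
      obtain ⟨b₀, hb₀⟩ := hex z hz
      refine ⟨b₀, fun a ha => ?_⟩
      by_contra hcon
      exact hb₀ (hF2 E D D a b₀ (not_le.1 hcon).le le_rfl ha.2)
    have hmem : sInf S ∈ S := Int.csInf_mem hne hbd
    have hkp : kp H E D' D z = sInf S := rfl
    rw [hkp]
    constructor
    · intro hle
      exact hup _ _ hmem hle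
    · intro hb
      exact csInf_le hbd hb
  refine ⟨⟨fun b => ?_, fun z hz b hb => ?_⟩, key⟩
  · have h1 : {z | z ∈ H ∧ kp H E D' D z ≤ b} = H ∩ (Fb H D' b ∩ Fb E D b) := by
      ext z
      constructor
      · rintro ⟨hz, hk⟩
        exact ⟨hz, (key z hz b).1 hk⟩
      · rintro ⟨hz, hk⟩
        exact ⟨hz, (key z hz b).2 hk⟩
    rw [h1]
    exact hH.1.inter (((hF1 H D' b).2.1 hH.1).inter ((hF1 E D b).2.1 hE.1))
  · exact ((key z hz b).1 hb).1.2 b le_rfl

end Pool.Agent.Helper82.ES
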